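import Pool.Agent.helper11.TX.Spec

/-!
# Project TX, row GC: pairs sorted by their greatest common divisor
-/

set_option autoImplicit false

namespace Pool.Agent.helper11.TX

open Finset Pool.Agent.helper85.FC

/-- **GC**. -/
theorem GC : GC_stmt := by
  classical
  intro N F
  rw [← sum_product' (Icc 1 N) (Icc 1 N) F]
  rw [← sum_fiberwise_of_maps_to (s := Icc 1 N ×ˢ Icc 1 N) (t := Icc 1 N)
    (g := fun p : ℕ × ℕ => Nat.gcd p.1 p.2) (by
      intro p hp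
      rw [mem_product, mem_Icc, mem_Icc] at hp
      rw [mem_Icc]
      exact ⟨Nat.gcd_pos_of_pos_left _ hp.1.1, (Nat.gcd_le_left _ hp.1.1).trans hp.1.2⟩)]
  refine sum_congr rfl fun g hg => ?_
  have hg1 : 1 ≤ g := (mem_Icc.1 hg).1
  have h1 : ∑ a ∈ Icc 1 (N / g), ∑ b ∈ Icc 1 (N / g) with Nat.Coprime a b, F (g * a) (g * b) =
      ∑ p ∈ (Icc 1 (N / g) ×ˢ Icc 1 (N / g)).filter (fun p : ℕ × ℕ => Nat.Coprime p.1 p.2),
        F (g * p.1) (g * p.2) := by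
    rw [sum_filter, sum_product]
    exact sum_congr rfl fun a _ => sum_filter _ _
  rw [h1]
  symm
  refine sum_nbij' (fun p => (g * p.1, g * p.2)) (fun p => (p.1 / g, p.2 / g)) ?_ ?_ ?_ ?_ ?_
  · intro p hp
    rw [mem_filter, mem_product, mem_Icc, mem_Icc] at hp
    obtain ⟨⟨⟨a1, a2⟩, b1, b2⟩, hc⟩ := hp
    rw [mem_filter, mem_product, mem_Icc, mem_Icc]
    refine ⟨⟨⟨Nat.mul_pos hg1 a1, ?_⟩, Nat.mul_pos hg1 b1, ?_⟩, ?_⟩
    · calc g * p.1 ≤ g * (N / g) := Nat.mul_le_mul_left _ a2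
        _ ≤ N := Nat.mul_div_le _ _
    · calc g * p.2 ≤ g * (N / g) := Nat.mul_le_mul_left _ b2
        _ ≤ N := Nat.mul_div_le _ _
    · simp only
      rw [Nat.gcd_mul_left, hc, mul_one]
  · intro p hp
    rw [mem_filter, mem_product, mem_Icc, mem_Icc] at hp
    obtain ⟨⟨⟨a1, a2⟩, b1, b2⟩, hc⟩ := hp
    have hd1 : g ∣ p.1 := hc ▸ Nat.gcd_dvd_left _ _
    have hd2 : g ∣ p.2 := hc ▸ Nat.gcd_dvd_right _ _
    rw [mem_filter, mem_product, mem_Icc, mem_Icc]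
    refine ⟨⟨⟨Nat.div_pos (Nat.le_of_dvd a1 hd1) hg1, Nat.div_le_div_right a2⟩,
      Nat.div_pos (Nat.le_of_dvd b1 hd2) hg1, Nat.div_le_div_right b2⟩, ?_⟩
    simp only
    have h2 := Nat.coprime_div_gcd_div_gcd (m := p.1) (n := p.2) (by rw [hc]; exact hg1)
    rwa [hc] at h2
  · intro p _
    simp only
    rw [Nat.mul_div_cancel_left _ hg1, Nat.mul_div_cancel_left _ hg1]
  · intro p hp
    rw [mem_filter] at hp
    have hc := hp.2
    have hd1 : g ∣ p.1 := hc ▸ Nat.gcd_dvd_left _ _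
    have hd2 : g ∣ p.2 := hc ▸ Nat.gcd_dvd_right _ _
    simp only
    rw [Nat.mul_div_cancel' hd1, Nat.mul_div_cancel' hd2]
  · intro p _
    rfl

end Pool.Agent.helper11.TX
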